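import Mathlib
import Pool.Agent.Helper47.P.Defs
import Pool.Agent.Helper91.M.Nice3

/-!
# Theorem M+, block PT: `nice3`

No line through `x j` is in the fibre, for general coefficients of the types `Tc`.
-/

set_option autoImplicit false

namespace Pool.Agent.Helper91.P

open MvPolynomial Pool.Agent.Helper47.M Pool.Agent.Helper47.P Pool.Agent.Helper60.M Pool.Agent
open Pool.Agent.Helper91.M

variable {k l : ℕ} {N : Fin k → ℕ} {d : Fin l → Fin k → ℕ}

variable {r j : Fin k} {e0 : Fin (N r + 1)} {e1 : Fin (N j + 1)}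

theorem Lf_surj (h : Tc N d) (hrj : j ≠ r) (i0 : Fin l) (hi : d i0 j = 2) (h1 : e1 ≠ 0)
    (Ω : Type) [Field Ω] (w : {q : Vr N // q.1 ≠ r} → Ω) (v : Pr N r j e0 e1 → Ω)
    (t : Fin l ⊕ (Fin l ⊕ Unit) → Ω) :
    ∃ c' : Tx N d → Ω, ∀ u, Lf d r j i0 e0 e1 Ω c' w v u = t u := by
  classical
  set x := gp r w (yv v) with hx
  have hx0 : ∀ q, x q ≠ 0 := fun q => gp_ne_zero w (yv v) (yv_ne_zero v) q
  have hxj : x j 0 = 1 := by
    rw [hx, gp_ne _ _ _ hrj]
    simp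
  have hb : ∀ u w : Ω, (∀ i, u * x j i + w * bv v i = 0) → u = 0 ∧ w = 0 := by
    intro u w h2
    have h3 := h2 0
    rw [hxj, bv_zero h1] at h3
    have hu : u = 0 := by simpa using h3
    refine ⟨hu, ?_⟩
    have h4 := h2 e1
    rw [hu, bv_one] at h4
    simpa using h4
  have key : ∀ i : Fin l, ∃ a : Tn N (d i) → Ω, fv a x = t (Sum.inl i) ∧
      dv a x j (bv v) = t (Sum.inr (Sum.inl i)) ∧
      (i = i0 → fv a (Function.update x j (bv v)) = t (Sum.inr (Sum.inr ()))) := by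
    intro i
    by_cases hii : i = i0
    · subst hii
      obtain ⟨a, h2, h3, h4⟩ := Helper94.M.exists_tensor2 (h.pos i) x hx0 j hi (bv v) hb
        (t (Sum.inl i)) (t (Sum.inr (Sum.inl i))) (t (Sum.inr (Sum.inr ())))
      exact ⟨a, h2, h3, fun _ => h4⟩
    · obtain ⟨a, h2, h3⟩ := Helper94.M.exists_tensor1 (h.pos i) x hx0 j (bv v) hb
        (t (Sum.inl i)) (t (Sum.inr (Sum.inl i)))
      exact ⟨a, h2, h3, fun h4 => absurd h4 hii⟩
  choose a ha1 ha2 ha3 using key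
  refine ⟨fun m => a m.1 m.2, fun u => ?_⟩
  rcases u with i | i | i
  · exact ha1 i
  · exact ha2 i
  · exact ha3 i0 rfl

theorem nice3 (h : Tc N d) (r : Fin k) (hr : N r = l + 1) (j : Fin k) (hj : N j = l)
    (i0 : Fin l) (hi : d i0 j = 2) :
    ∃ Δ : MvPolynomial (Tx N d) ℚ, Δ ≠ 0 ∧ ∀ (K : Type) [Field K] [CharZero K] (c : Tx N d → K),
      aeval c Δ ≠ 0 → ∀ (Ω : Type) [Field Ω] [Algebra K Ω] (x : Pt N Ω), GenPt K c r x →
        ∀ b : Fin (N j + 1) → Ω, b 0 = 0 →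
          (∀ i, dF (fun e => algebraMap K Ω (c e)) x j b i = 0) →
          Fm (fun e => algebraMap K Ω (c e)) (Function.update x j b) i0 = 0 → b = 0 := by
  classical
  have hrj : j ≠ r := by
    rintro rfl
    omega
  have key : ∀ (e0 : Fin (N r + 1)) (e1 : Fin (N j + 1)), ∃ D : MvPolynomial (Tx N d) ℚ, D ≠ 0 ∧
      (e1 ≠ 0 → ∀ (K : Type) [Field K] [CharZero K] (c : Tx N d → K),
      aeval c D ≠ 0 → ∀ (Ω : Type) [Field Ω] [Algebra K Ω] (w : {q : Vr N // q.1 ≠ r} → Ω)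
        (v : Pr N r j e0 e1 → Ω), AlgebraicIndependent K w →
        ¬ ∀ u, Lf d r j i0 e0 e1 Ω (fun i => algebraMap K Ω (c i)) w v u = 0) := by
    intro e0 e1
    by_cases h1 : e1 = 0
    · exact ⟨1, one_ne_zero, fun h2 => absurd h1 h2⟩
    · obtain ⟨D, h2, h3⟩ := Helper88.M.engine (Lf d r j i0 e0 e1) (Lf_nat i0) (Lf_lin i0)
        (fun Ω _ _ w v t => Lf_surj h hrj i0 hi h1 Ω w v t) (card_lt hr hj h1)
      exact ⟨D, h2, fun _ => h3⟩
  choose D hD hD' using key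
  refine ⟨∏ e0, ∏ e1, D e0 e1, Finset.prod_ne_zero_iff.2 fun e0 _ =>
    Finset.prod_ne_zero_iff.2 fun e1 _ => hD e0 e1, ?_⟩
  intro K _ _ c hc Ω _ _ x hx b hb0 hd hf
  rw [map_prod] at hc
  have hc' : ∀ e0 e1, aeval c (D e0 e1) ≠ 0 := by
    intro e0 e1
    have h1 := Finset.prod_ne_zero_iff.1 hc e0 (Finset.mem_univ _)
    rw [map_prod] at h1
    exact Finset.prod_ne_zero_iff.1 h1 e1 (Finset.mem_univ _)
  by_contra hb
  obtain ⟨e1, he1⟩ : ∃ e1, b e1 ≠ 0 := by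
    by_contra h1
    push Not at h1
    exact hb (funext h1)
  have h1 : e1 ≠ 0 := by
    rintro rfl
    exact he1 hb0
  obtain ⟨e0, he0⟩ := hx.norm
  have hxx : gp r (fun q => x q.1.1 q.1.2.succ) (x r) = x := gp_eq x hx.one
  set b' : Fin (N j + 1) → Ω := fun i => (b e1)⁻¹ * b i with hb'
  refine hD' e0 e1 h1 K c (hc' e0 e1) Ω (fun q => x q.1.1 q.1.2.succ)
    (Sum.elim (fun i => x r i) (fun i => b' i)) hx.ind fun u => ?_
  have hy : yv (e0 := e0) (e1 := e1) (Sum.elim (fun i => x r i) (fun i => b' i)) = x r :=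
    yv_eq (x r) b' he0
  have hbv : bv (e0 := e0) (e1 := e1) (Sum.elim (fun i => x r i) (fun i => b' i)) = b' :=
    bv_eq h1 (x r) b' (by simp [hb', hb0]) (by simp [hb', he1])
  rcases u with i | i | i
  · simp only [Lf]
    rw [hy, hxx]
    exact hx.eq i
  · simp only [Lf]
    rw [hy, hxx, hbv]
    have := dv_smul (fun m => algebraMap K Ω (c ⟨i, m⟩)) x j (b e1)⁻¹ b
    have h2 := hd i
    unfold dF at h2 ⊢
    rw [this, h2, mul_zero]
  · simp only [Lf]
    rw [hy, hxx, hbv]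
    have h3 := fv_scale (fun m => algebraMap K Ω (c ⟨i0, m⟩)) (Function.update x j b) j
      (b e1)⁻¹
    rw [Function.update_self, Function.update_idem] at h3
    unfold Fm at hf ⊢
    rw [hb', h3, hf, mul_zero]

end Pool.Agent.Helper91.P
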